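import Pool.Agent.H46.Hart.Neg

/-!
# Linear automorphisms acting on polynomials; invariants and conormal spaces

For a finite group `G` generated by reflections and a `G`-stable homogeneous prime ideal `I` on
whose zero set `G` acts faithfully, `I` is generated by the `G`-invariants it contains.
-/

open MvPolynomial

set_option linter.unusedSectionVars false

namespace H46.Hart

open H89.Hart

variable {ι : Type*} [Fintype ι] [DecidableEq ι]

/-- Linear automorphisms of the coordinate space. -/
abbrev Aut (ι : Type*) [Fintype ι] [DecidableEq ι] := (ι → ℂ) ≃ₗ[ℂ] (ι → ℂ)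

/-- Composition of a polynomial with a linear automorphism. -/
noncomputable def act (g : Aut ι) : MvPolynomial ι ℂ →ₐ[ℂ] MvPolynomial ι ℂ :=
  aeval fun i => lf (fun j => g (Pi.single j 1) i)

theorem apply_eq_sum (g : Aut ι) (x : ι → ℂ) (i : ι) :
    g x i = ∑ j, g (Pi.single j 1) i * x j := by
  conv_lhs => rw [show x = ∑ k, x k • (Pi.single k (1 : ℂ) : ι → ℂ) from by
    funext m; simp [Finset.sum_apply, Pi.single_apply]]
  rw [map_sum]
  simp [Finset.sum_apply, mul_comm]

theorem eval_act (g : Aut ι) (x : ι → ℂ) (f : MvPolynomial ι ℂ) :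
    eval x (act g f) = eval (g x) f := by
  have : ((aeval x : MvPolynomial ι ℂ →ₐ[ℂ] ℂ).comp (act g)) = aeval (g x) := by
    apply MvPolynomial.algHom_ext
    intro i
    simp only [act, AlgHom.comp_apply, aeval_X, aeval_eq_eval, eval_lf, dotProduct]
    rw [apply_eq_sum g x i]
  have h2 := congrArg (fun ψ => ψ f) this
  simpa [aeval_eq_eval] using h2

theorem eval_inj {f g : MvPolynomial ι ℂ} (h : ∀ x, eval x f = eval x g) : f = g :=
  MvPolynomial.funext h

theorem act_mul (g g' : Aut ι) (f : MvPolynomial ι ℂ) : act (g * g') f = act g' (act g f) := by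
  apply eval_inj
  intro x
  rw [eval_act, eval_act, eval_act]
  rfl

theorem act_one (f : MvPolynomial ι ℂ) : act (1 : Aut ι) f = f := by
  apply eval_inj
  intro x
  rw [eval_act]
  rfl

theorem act_homog (g : Aut ι) {f : MvPolynomial ι ℂ} {e : ℕ} (hf : f.IsHomogeneous e) :
    (act g f).IsHomogeneous e := by
  rw [f.as_sum, map_sum]
  refine IsHomogeneous.sum _ _ _ fun m hm => ?_
  rw [act, aeval_monomial]
  have h1 : (m.prod fun i k => (lf fun j => g (Pi.single j 1) i) ^ k).IsHomogeneous
      (∑ i ∈ m.support, m i) := by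
    apply IsHomogeneous.prod
    intro i _
    simpa using (lf_homog (fun j => g (Pi.single j 1) i)).pow (m i)
  rw [hf.degree_eq_sum_deg_support hm]
  exact h1.C_mul _

theorem dif_act (g : Aut ι) (f : MvPolynomial ι ℂ) (p u : ι → ℂ) :
    dif (act g f) p ⬝ᵥ u = dif f (g p) ⬝ᵥ g u := by
  rw [← coeff_one_ln, ← coeff_one_ln]
  congr 1
  apply Polynomial.funext
  intro t
  rw [eval_ln, eval_ln, eval_act, map_add, map_smul]

theorem eq_of_dot {v w : ι → ℂ} (h : ∀ u, v ⬝ᵥ u = w ⬝ᵥ u) : v = w := by
  funext i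
  simpa using h (Pi.single i 1)

/-- A polynomial which is 1 at `p` and 0 on a finite set not containing `p`. -/
theorem exists_interp (p : ι → ℂ) (T : Finset (ι → ℂ)) (hp : p ∉ T) :
    ∃ φ : MvPolynomial ι ℂ, eval p φ = 1 ∧ ∀ q ∈ T, eval q φ = 0 := by
  classical
  induction T using Finset.induction_on with
  | empty => exact ⟨1, by simp, by simp⟩
  | insert q T hq ih =>
    obtain ⟨φ, h1, h2⟩ := ih (fun h => hp (Finset.mem_insert_of_mem h))
    have hpq : p ≠ q := fun h => hp (h ▸ Finset.mem_insert_self _ _)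
    obtain ⟨i, hi⟩ := Function.ne_iff.1 hpq
    refine ⟨φ * (C (p i - q i)⁻¹ * (X i - C (q i))), ?_, ?_⟩
    · simp [h1, inv_mul_cancel₀ (sub_ne_zero.2 hi)]
    · intro a ha
      rcases Finset.mem_insert.1 ha with rfl | ha
      · simp
      · simp [h2 a ha]

/-- reflections (up to being of finite order). -/
def IsRefl (t : Aut ι) : Prop := ∃ s v : ι → ℂ, ∀ x, t x = x + (s ⬝ᵥ x) • v

/-- The data of a finite reflection group with its basic invariants. -/
structure RData (G : Subgroup (Aut ι)) (h : ι → MvPolynomial ι ℂ) (d : ι → ℕ) : Prop where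
  finite : Finite G
  refl : G ≤ Subgroup.closure {t : Aut ι | t ∈ G ∧ IsRefl t}
  pos : ∀ k, 0 < d k
  hom : ∀ k, (h k).IsHomogeneous (d k)
  inv : ∀ k, ∀ g ∈ G, ∀ x, eval (g x) (h k) = eval x (h k)
  gen : ∀ f : MvPolynomial ι ℂ, (∀ g ∈ G, ∀ x, eval (g x) f = eval x f) →
    f ∈ Algebra.adjoin ℂ (Set.range h)

/-- A smooth variety with a faithful action of `G`. -/
structure GVar (G : Subgroup (Aut ι)) (I : Ideal (MvPolynomial ι ℂ)) (r : ℕ) : Prop where
  smooth : Smooth I r
  stable : ∀ g ∈ G, ∀ x ∈ cone I, g x ∈ cone I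
  faithful : ∀ g ∈ G, (∀ x ∈ cone I, g x = x) → g = 1

variable {G : Subgroup (Aut ι)} {I : Ideal (MvPolynomial ι ℂ)} {r : ℕ}
  {h : ι → MvPolynomial ι ℂ} {d : ι → ℕ}

/-- invariant polynomials. -/
def Inv (G : Subgroup (Aut ι)) (f : MvPolynomial ι ℂ) : Prop :=
  ∀ g ∈ G, ∀ x, eval (g x) f = eval x f

theorem GVar.act_mem (hX : GVar G I r) {g : Aut ι} (hg : g ∈ G) {f : MvPolynomial ι ℂ}
    (hf : f ∈ I) : act g f ∈ I := by
  apply mem_of_forall_cone I hX.smooth.prime
  intro x hx
  rw [eval_act]
  exact hX.stable g hg x hx f hf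

theorem act_of_inv {g : Aut ι} (hg : g ∈ G) {F : MvPolynomial ι ℂ} (hF : Inv G F) :
    act g F = F := by
  apply eval_inj
  intro x
  rw [eval_act, hF g hg x]

theorem inv_sum_act [Fintype G] (f : MvPolynomial ι ℂ) :
    Inv G (∑ g : G, act (g : Aut ι) f) := by
  intro g hg x
  rw [map_sum, map_sum]
  simp only [eval_act]
  exact Equiv.sum_comp (Equiv.mulRight (⟨g, hg⟩ : G))
    (fun g' : G => eval ((g' : Aut ι) x) f)

/-- `f ∘ t - f` is divisible by the equation of the mirror, with quotient in `I`. -/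
theorem GVar.refl_dvd (hX : GVar G I r) {t : Aut ι} (ht : t ∈ G) (hr : IsRefl t)
    {f : MvPolynomial ι ℂ} (hf : f ∈ I) {e : ℕ} (hfe : f.IsHomogeneous (e + 1)) :
    ∃ s q : MvPolynomial ι ℂ, act t f - f = s * q ∧ q ∈ I ∧ q.IsHomogeneous e := by
  obtain ⟨s, v, hsv⟩ := hr
  by_cases h1 : t = 1
  · exact ⟨0, 0, by rw [h1, act_one]; simp, I.zero_mem, isHomogeneous_zero _ _ _⟩
  have hsI : lf s ∉ I := by
    intro hs
    apply h1
    apply hX.faithful t ht
    intro x hx
    have := hx _ hs
    rw [eval_lf] at this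
    rw [hsv, this, zero_smul, add_zero]
  obtain ⟨q, hq⟩ : ∃ q, act t f - f = lf s * q := by
    have := algHom_sub_mem (Ideal.span {lf s}) (act t) (AlgHom.id ℂ _) (by
      intro i
      have : act t (X i) - (AlgHom.id ℂ _) (X i : MvPolynomial ι ℂ) = lf s * C (v i) := by
        apply eval_inj
        intro x
        simp only [AlgHom.id_apply, map_sub, map_mul, eval_act, eval_X, eval_C, eval_lf]
        rw [hsv]
        simp
      rw [this]
      exact Ideal.mul_mem_right _ _ (Ideal.mem_span_singleton_self _)) f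
    exact Ideal.mem_span_singleton.1 this
  have hhom : (act t f - f).IsHomogeneous (1 + e) := by
    rw [add_comm]
    refine IsHomogeneous.sub ?_ hfe
    exact act_homog t hfe
  have h2 : act t f - f = lf s * homogeneousComponent e q := by
    rw [← hc_mul (lf_homog s) q e, ← hq, homogeneousComponent_of_mem hhom, if_pos rfl]
  refine ⟨lf s, homogeneousComponent e q, h2, ?_, homogeneousComponent_isHomogeneous _ _⟩
  have h3 : lf s * homogeneousComponent e q ∈ I := by
    rw [← h2]
    exact I.sub_mem (hX.act_mem ht hf) hf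
  exact (hX.smooth.prime.mem_or_mem h3).resolve_left hsI

/-- the ideal generated by the invariants in `I`. -/
noncomputable def invI (G : Subgroup (Aut ι)) (I : Ideal (MvPolynomial ι ℂ)) :
    Ideal (MvPolynomial ι ℂ) := Ideal.span {F | F ∈ I ∧ Inv G F}

theorem act_invI {g : Aut ι} (hg : g ∈ G) {f : MvPolynomial ι ℂ} (hf : f ∈ invI G I) :
    act g f ∈ invI G I := by
  have h1 : invI G I ≤ (invI G I).comap (act g) := by
    rw [invI, Ideal.span_le]
    rintro F ⟨hF, hinv⟩
    change act g F ∈ Ideal.span _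
    rw [act_of_inv hg hinv]
    exact Ideal.subset_span ⟨hF, hinv⟩
  exact h1 hf

/-- `I` is generated by its invariants. -/
theorem le_invI (hG : RData G h d) (hX : GVar G I r) : I ≤ invI G I := by
  classical
  have := hG.finite
  have := Fintype.ofFinite G
  have key : ∀ e : ℕ, ∀ f ∈ I, f.IsHomogeneous e → f ∈ invI G I := by
    intro e
    induction e with
    | zero =>
      intro f hf hfe
      have h2 := totalDegree_eq_zero_iff_eq_C.1 ((totalDegree_zero_iff_isHomogeneous ι).2 hfe)
      by_cases hc : coeff 0 f = 0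
      · rw [h2, hc, C_0]; exact Ideal.zero_mem _
      · exfalso
        apply hX.smooth.prime.ne_top
        rw [Ideal.eq_top_iff_one]
        have h4 := I.mul_mem_left (C (coeff 0 f)⁻¹) hf
        rw [h2] at h4
        rw [coeff_C, if_pos rfl, ← C_mul, inv_mul_cancel₀ hc, C_1] at h4
        exact h4
    | succ e ih =>
      intro f hf hfe
      have hg : ∀ g ∈ Subgroup.closure {t : Aut ι | t ∈ G ∧ IsRefl t},
          g ∈ G ∧ act g f - f ∈ invI G I := by
        intro g hg
        induction hg using Subgroup.closure_induction with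
        | mem t ht =>
          refine ⟨ht.1, ?_⟩
          obtain ⟨s, q, h1, hq, hqe⟩ := hX.refl_dvd ht.1 ht.2 hf hfe
          rw [h1]
          exact Ideal.mul_mem_left _ _ (ih q hq hqe)
        | one => exact ⟨G.one_mem, by rw [act_one, sub_self]; exact Ideal.zero_mem _⟩
        | mul x y _ _ hx hy =>
          refine ⟨G.mul_mem hx.1 hy.1, ?_⟩
          have h1 := act_invI hy.1 hx.2
          have h2 := Ideal.add_mem _ h1 hy.2
          rw [map_sub, ← act_mul] at h2
          simpa using h2
        | inv x _ hx =>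
          refine ⟨G.inv_mem hx.1, ?_⟩
          have h1 := act_invI (G.inv_mem hx.1) hx.2
          rw [map_sub, ← act_mul, mul_inv_cancel, act_one] at h1
          rw [← neg_sub]
          exact Ideal.neg_mem_iff _ |>.2 h1
      have h1 : ∑ g : G, act (g : Aut ι) f ∈ invI G I :=
        Ideal.subset_span ⟨I.sum_mem fun g _ => hX.act_mem g.2 hf, inv_sum_act f⟩
      have h2 : ∑ g : G, (act (g : Aut ι) f - f) ∈ invI G I :=
        Ideal.sum_mem _ fun g _ => (hg g (hG.refl g.2)).2
      have h3 := Ideal.sub_mem _ h1 h2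
      rw [Finset.sum_sub_distrib, sub_sub_cancel, Finset.sum_const, Finset.card_univ,
        nsmul_eq_mul] at h3
      have hc : ((Fintype.card G : ℕ) : ℂ) ≠ 0 := Nat.cast_ne_zero.2 Fintype.card_ne_zero
      have h4 := Ideal.mul_mem_left (invI G I) (C ((Fintype.card G : ℕ) : ℂ)⁻¹) h3
      have e4 : (C ((Fintype.card G : ℕ) : ℂ)⁻¹ : MvPolynomial ι ℂ) *
          (((Fintype.card G : ℕ) : MvPolynomial ι ℂ) * f) = f := by
        have : ((Fintype.card G : ℕ) : MvPolynomial ι ℂ) = C ((Fintype.card G : ℕ) : ℂ) := by simp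
        rw [this, ← mul_assoc, ← C_mul, inv_mul_cancel₀ hc, C_1, one_mul]
      rwa [e4] at h4
  intro f hf
  rw [← sum_homogeneousComponent f]
  exact Ideal.sum_mem _ fun e _ => key e _ (hX.smooth.homog f hf e)
    (homogeneousComponent_isHomogeneous _ _)

end H46.Hart
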