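import Pool.Agent.H46.Hart.Rel

/-!
# Weighted homogeneous relations with independent linear parts generate
-/

open MvPolynomial

set_option linter.unusedSectionVars false

namespace H46.Hart

open H89.Hart

variable {ι : Type*} [Fintype ι] [DecidableEq ι]

variable {G : Subgroup (Aut ι)} {I : Ideal (MvPolynomial ι ℂ)} {r : ℕ}
  {h : ι → MvPolynomial ι ℂ} {d : ι → ℕ}

theorem aeval_monomial_homog (hG : RData G h d) (s : ι →₀ ℕ) (c : ℂ) :
    (aeval h (monomial s c)).IsHomogeneous (Finsupp.weight d s) := by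
  rw [aeval_monomial, Finsupp.weight_apply, Finsupp.prod, Finsupp.sum]
  have h1 : (∏ i ∈ s.support, h i ^ s i).IsHomogeneous (∑ i ∈ s.support, s i • d i) := by
    apply IsHomogeneous.prod
    intro i _
    have := (hG.hom i).pow (s i)
    rwa [smul_eq_mul, mul_comm]
  have := h1.C_mul c
  exact this

theorem aeval_wcomp (hG : RData G h d) (m : ℕ) (Q : MvPolynomial ι ℂ) :
    aeval h (weightedHomogeneousComponent d m Q) = homogeneousComponent m (aeval h Q) := by
  induction Q using MvPolynomial.induction_on' with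
  | monomial s c =>
    rw [weightedHomogeneousComponent_of_mem (isWeightedHomogeneous_monomial d s c rfl),
      homogeneousComponent_of_mem (aeval_monomial_homog hG s c)]
    split_ifs
    · rfl
    · exact map_zero _
  | add p q hp hq => simp only [map_add, hp, hq]

theorem wcomp_mem_rel (hG : RData G h d) (hX : GVar G I r) {Q : MvPolynomial ι ℂ}
    (hQ : Q ∈ rel h I) (m : ℕ) : weightedHomogeneousComponent d m Q ∈ rel h I := by
  rw [mem_rel, aeval_wcomp hG]
  exact hX.smooth.homog _ hQ m

theorem homog_of_whomog (hG : RData G h d) {Q : MvPolynomial ι ℂ} {m : ℕ}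
    (hQ : IsWeightedHomogeneous d Q m) : (aeval h Q).IsHomogeneous m := by
  have h1 := aeval_wcomp hG m Q
  rw [weightedHomogeneousComponent_of_mem hQ, if_pos rfl] at h1
  rw [h1]
  exact homogeneousComponent_isHomogeneous _ _

theorem dif_zero_apply (Q : MvPolynomial ι ℂ) (k : ι) :
    dif Q 0 k = coeff (Finsupp.single k 1) Q := by
  rw [dif]
  have e : eval (0 : ι → ℂ) (pderiv k Q) = constantCoeff (pderiv k Q) := by
    rw [← MvPolynomial.eval_zero]
  rw [e, constantCoeff_eq, coeff_pderiv]
  simp

theorem span_whomog (hG : RData G h d) (hX : GVar G I r) :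
    N (rel h I) 0 ≤ Submodule.span ℂ {w : ι → ℂ | ∃ Q ∈ rel h I,
      (∃ m, IsWeightedHomogeneous d Q m) ∧ dif Q 0 = w} := by
  intro σ hσ
  obtain ⟨Q, hQ, rfl⟩ := mem_N.1 hσ
  have h1 : dif Q 0 = ∑ m ∈ Finset.univ.image d, dif (weightedHomogeneousComponent d m Q) 0 := by
    funext k
    rw [Finset.sum_apply, Finset.sum_eq_single (d k)]
    · rw [dif_zero_apply, dif_zero_apply, coeff_weightedHomogeneousComponent, if_pos]
      rw [Finsupp.weight_single]; simp
    · intro m _ hm
      rw [dif_zero_apply, coeff_weightedHomogeneousComponent, if_neg]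
      rw [Finsupp.weight_single]; simpa using Ne.symm hm
    · intro hk
      exact absurd (Finset.mem_image_of_mem d (Finset.mem_univ k)) hk
  rw [h1]
  exact Submodule.sum_mem _ fun m _ => Submodule.subset_span
    ⟨_, wcomp_mem_rel hG hX hQ m,
      ⟨m, weightedHomogeneousComponent_isWeightedHomogeneous m Q⟩, rfl⟩

theorem exists_rels (hG : RData G h d) (hX : GVar G I r)
    (hr : r ≤ Module.finrank ℂ (N (rel h I) 0)) :
    ∃ (Q : Fin r → MvPolynomial ι ℂ) (m : Fin r → ℕ), (∀ j, Q j ∈ rel h I) ∧
      (∀ j, IsWeightedHomogeneous d (Q j) (m j)) ∧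
      LinearIndependent ℂ (fun j => dif (Q j) 0) := by
  set S := {w : ι → ℂ | ∃ Q ∈ rel h I, (∃ m, IsWeightedHomogeneous d Q m) ∧ dif Q 0 = w} with hS
  obtain ⟨f, hf, -, hli⟩ := Submodule.exists_fun_fin_finrank_span_eq ℂ S
  have hr' : r ≤ Module.finrank ℂ (Submodule.span ℂ S) :=
    hr.trans (Submodule.finrank_mono (span_whomog hG hX))
  choose Q hQ hm hd using hf
  choose m hm using hm
  refine ⟨fun j => Q (Fin.castLE hr' j), fun j => m (Fin.castLE hr' j), fun j => hQ _,
    fun j => hm _, ?_⟩
  simp only [hd]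
  exact hli.comp _ (Fin.castLE_injective hr')

theorem exists_compl {r : ℕ} (v : Fin r → ι → ℂ) (hv : LinearIndependent ℂ v) :
    ∃ κ : Fin (Fintype.card ι - r) → ι, ∀ y : ι → ℂ, ∃ (a : Fin (Fintype.card ι - r) → ℂ)
      (b : Fin r → ℂ), y = ∑ i, a i • (Pi.single (κ i) 1 : ι → ℂ) + ∑ j, b j • v j := by
  set W := Submodule.span ℂ (Set.range v) with hW
  have hWf : Module.finrank ℂ W = r := by rw [hW, finrank_span_eq_card hv, Fintype.card_fin]
  set T : Set ((ι → ℂ) ⧸ W) := Set.range fun k : ι => W.mkQ (Pi.single k 1) with hT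
  have hTtop : Submodule.span ℂ T = ⊤ := by
    rw [hT, ← Function.comp_def W.mkQ, Set.range_comp, ← Submodule.map_span]
    have : Submodule.span ℂ (Set.range fun k : ι => (Pi.single k 1 : ι → ℂ)) = ⊤ := by
      have h1 := (Pi.basisFun ℂ ι).span_eq
      have h2 : (⇑(Pi.basisFun ℂ ι)) = fun k : ι => (Pi.single k 1 : ι → ℂ) := by
        funext k
        rw [Pi.basisFun_apply]
      rwa [h2] at h1
    rw [this, Submodule.map_top, Submodule.range_mkQ]
  have hfin : Module.finrank ℂ (Submodule.span ℂ T) = Fintype.card ι - r := by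
    rw [hTtop, finrank_top]
    have := Submodule.finrank_quotient_add_finrank W
    rw [Module.finrank_fintype_fun_eq_card, hWf] at this
    omega
  obtain ⟨f, hf, hspan, -⟩ := Submodule.exists_fun_fin_finrank_span_eq ℂ T
  choose κ hκ using hf
  refine ⟨fun i => κ (Fin.cast hfin.symm i), fun y => ?_⟩
  have h1 : W.mkQ y ∈ Submodule.span ℂ (Set.range f) := by
    rw [hspan, hTtop]; trivial
  obtain ⟨c, hc⟩ := (Submodule.mem_span_range_iff_exists_fun ℂ).1 h1
  have h2 : y - ∑ i, c i • (Pi.single (κ i) 1 : ι → ℂ) ∈ W := by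
    rw [← Submodule.Quotient.mk_eq_zero, ← Submodule.mkQ_apply, map_sub, map_sum, ← hc,
      sub_eq_zero]
    refine Finset.sum_congr rfl fun i _ => ?_
    rw [map_smul, ← hκ]
  obtain ⟨b, hb⟩ := (Submodule.mem_span_range_iff_exists_fun ℂ).1 h2
  refine ⟨fun i => c (Fin.cast hfin.symm i), b, ?_⟩
  have h3 : ∑ i : Fin (Fintype.card ι - r),
      c (Fin.cast hfin.symm i) • (Pi.single (κ (Fin.cast hfin.symm i)) 1 : ι → ℂ) =
      ∑ i, c i • (Pi.single (κ i) 1 : ι → ℂ) :=
    Equiv.sum_comp (finCongr hfin.symm) fun i => c i • (Pi.single (κ i) 1 : ι → ℂ)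
  rw [h3, hb]
  abel

theorem lf_add (s t : ι → ℂ) : lf (s + t) = lf s + lf t := by
  simp [lf, add_mul, Finset.sum_add_distrib]

theorem lf_smul (c : ℂ) (s : ι → ℂ) : lf (c • s) = C c * lf s := by
  simp [lf, Finset.mul_sum, mul_assoc]

theorem lf_sum {α : Type*} (t : Finset α) (s : α → ι → ℂ) :
    lf (∑ a ∈ t, s a) = ∑ a ∈ t, lf (s a) := by
  classical
  induction t using Finset.induction_on with
  | empty => simp [lf]
  | insert a t ha ih => rw [Finset.sum_insert ha, Finset.sum_insert ha, lf_add, ih]

theorem lf_single (k : ι) : lf (Pi.single k 1 : ι → ℂ) = X k := by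
  rw [lf, Finset.sum_eq_single k]
  · simp
  · intro i _ hi; simp [hi]
  · simp

theorem coeff_lf (s : ι → ℂ) (m : ι →₀ ℕ) :
    coeff m (lf s) = ∑ k, if Finsupp.single k 1 = m then s k else 0 := by
  rw [lf, coeff_sum]
  refine Finset.sum_congr rfl fun k _ => ?_
  rw [coeff_C_mul, coeff_X]
  simp

/-- the nonlinear part of a weighted homogeneous polynomial involves lower weights only. -/
theorem sub_lf_mem (hd : ∀ k, 0 < d k) {Q : MvPolynomial ι ℂ} {m : ℕ}
    (hQ : IsWeightedHomogeneous d Q m) (B : Subalgebra ℂ (MvPolynomial ι ℂ))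
    (hB : ∀ l, d l < m → (X l : MvPolynomial ι ℂ) ∈ B) : Q - lf (dif Q 0) ∈ B := by
  rw [(Q - lf (dif Q 0)).as_sum]
  refine B.sum_mem fun s hs => ?_
  have hs1 : ∀ k, s ≠ Finsupp.single k 1 := by
    rintro k rfl
    rw [mem_support_iff] at hs
    apply hs
    rw [coeff_sub, coeff_lf, Finset.sum_eq_single k]
    · rw [if_pos rfl, dif_zero_apply, sub_self]
    · intro i _ hi
      rw [if_neg]
      intro h
      exact hi (Finsupp.single_left_injective one_ne_zero h)
    · simp
  have hs2 : s ∈ Q.support := by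
    rw [mem_support_iff] at hs ⊢
    intro h0
    apply hs
    rw [coeff_sub, h0, coeff_lf, zero_sub, neg_eq_zero]
    refine Finset.sum_eq_zero fun k _ => if_neg ?_
    exact fun h => hs1 k h.symm
  have hw : Finsupp.weight d s = m := hQ (mem_support_iff.1 hs2)
  have hlow : ∀ l ∈ s.support, d l < m := by
    intro l hl
    have hl1 : 1 ≤ s l := Nat.one_le_iff_ne_zero.2 (Finsupp.mem_support_iff.1 hl)
    have e : s = Finsupp.single l 1 + (s - Finsupp.single l 1) := by
      ext k
      by_cases hk : k = l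
      · subst hk; simp; omega
      · simp [hk]
    have hne : s - Finsupp.single l 1 ≠ 0 := by
      intro h0
      rw [h0, add_zero] at e
      exact hs1 l e
    obtain ⟨k, hk⟩ := Finsupp.ne_iff.1 hne
    rw [e, map_add, Finsupp.weight_single] at hw
    have hpos : 0 < Finsupp.weight d (s - Finsupp.single l 1) := by
      rw [Finsupp.weight_apply, Finsupp.sum]
      refine Finset.sum_pos (fun i hi => ?_) ⟨k, ?_⟩
      · have := Finsupp.mem_support_iff.1 hi
        exact Nat.mul_pos (Nat.pos_of_ne_zero this) (hd i)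
      · rw [Finsupp.mem_support_iff]
        simpa using hk
    simp only [smul_eq_mul, one_mul] at hw
    omega
  rw [monomial_eq]
  refine B.mul_mem (B.algebraMap_mem _) ?_
  rw [Finsupp.prod]
  exact B.prod_mem fun l hl => B.pow_mem (hB l (hlow l hl)) _

/-- generation by relations and complementary variables. -/
theorem adjoin_eq_top (hd : ∀ k, 0 < d k) {r : ℕ} (Q : Fin r → MvPolynomial ι ℂ) (m : Fin r → ℕ)
    (hm : ∀ j, IsWeightedHomogeneous d (Q j) (m j)) {t : ℕ} (κ : Fin t → ι)
    (hκ : ∀ y : ι → ℂ, ∃ (a : Fin t → ℂ) (b : Fin r → ℂ),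
      y = ∑ i, a i • (Pi.single (κ i) 1 : ι → ℂ) + ∑ j, b j • dif (Q j) 0) :
    Algebra.adjoin ℂ (Set.range Q ∪ Set.range fun i => (X (κ i) : MvPolynomial ι ℂ)) = ⊤ := by
  set B := Algebra.adjoin ℂ (Set.range Q ∪ Set.range fun i => (X (κ i) : MvPolynomial ι ℂ))
    with hB
  have key : ∀ w : ℕ, ∀ k, d k = w → (X k : MvPolynomial ι ℂ) ∈ B := by
    intro w
    induction w using Nat.strong_induction_on with
    | _ w ih =>
      intro k hk
      let π : (ι → ℂ) →ₗ[ℂ] (ι → ℂ) :=
        { toFun := fun y l => if d l = w then y l else 0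
          map_add' := fun x y => by funext l; by_cases h : d l = w <;> simp [h]
          map_smul' := fun c x => by funext l; by_cases h : d l = w <;> simp [h] }
      have hπ1 : ∀ l : ι, π (Pi.single l 1) = if d l = w then Pi.single l 1 else 0 := by
        intro l
        funext l'
        by_cases hl : l' = l
        · subst hl; by_cases h : d l' = w <;> simp [π, h]
        · by_cases h : d l = w <;> simp [π, h, hl]
      have hπ2 : ∀ j, π (dif (Q j) 0) = if m j = w then dif (Q j) 0 else 0 := by
        intro j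
        funext l
        have h1 : dif (Q j) 0 l ≠ 0 → d l = m j := by
          intro h
          rw [dif_zero_apply] at h
          have := hm j h
          rw [Finsupp.weight_single] at this
          simpa using this
        by_cases hj : m j = w
        · rw [if_pos hj]
          change (if d l = w then dif (Q j) 0 l else 0) = _
          split_ifs with hl
          · rfl
          · by_contra hne
            exact hl ((h1 (Ne.symm hne)).trans hj)
        · rw [if_neg hj]
          change (if d l = w then dif (Q j) 0 l else 0) = 0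
          split_ifs with hl
          · by_contra hne
            exact hj ((h1 hne).symm.trans hl)
          · rfl
      obtain ⟨a, b, hab⟩ := hκ (Pi.single k 1)
      have h2 := congrArg (fun y => lf (π y)) hab
      simp only [map_add, map_sum, map_smul, lf_add, lf_sum, lf_smul] at h2
      rw [hπ1, if_pos hk, lf_single] at h2
      rw [h2]
      refine B.add_mem (B.sum_mem fun i _ => B.mul_mem (B.algebraMap_mem _) ?_)
        (B.sum_mem fun j _ => B.mul_mem (B.algebraMap_mem _) ?_)
      · rw [hπ1]
        split_ifs with h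
        · rw [lf_single]
          exact Algebra.subset_adjoin (Or.inr ⟨i, rfl⟩)
        · have : lf (0 : ι → ℂ) = 0 := by simp [lf]
          rw [this]; exact B.zero_mem
      · rw [hπ2]
        split_ifs with h
        · have h3 : lf (dif (Q j) 0) = Q j - (Q j - lf (dif (Q j) 0)) := by ring
          rw [h3]
          refine B.sub_mem (Algebra.subset_adjoin (Or.inl ⟨j, rfl⟩)) ?_
          exact sub_lf_mem hd (hm j) B fun l hl => ih (d l) (by omega) l rfl
        · have : lf (0 : ι → ℂ) = 0 := by simp [lf]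
          rw [this]; exact B.zero_mem
  rw [eq_top_iff, ← MvPolynomial.adjoin_range_X, Algebra.adjoin_le_iff]
  rintro _ ⟨k, rfl⟩
  exact key _ k rfl

end H46.Hart
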