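import Pool.Agent.H89.Hart.Zak

/-!
# No nonzero regular functions of negative degree

If `E / δ` is regular at every nonzero point of the cone of a homogeneous prime `I` with
`dim S/I ≥ 2`, and `deg E < deg δ`, then `E ∈ I`.
-/

open MvPolynomial

set_option linter.unusedSectionVars false

namespace H46.Hart

open H89.Hart

variable {ι : Type*} [Fintype ι] [DecidableEq ι]

/-- the ideal of denominators. -/
noncomputable def den (I : Ideal (MvPolynomial ι ℂ)) (E δ : MvPolynomial ι ℂ) :
    Ideal (MvPolynomial ι ℂ) where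
  carrier := {u | ∃ b, u * E - δ * b ∈ I}
  add_mem' := by
    rintro u v ⟨b, hb⟩ ⟨c, hc⟩
    refine ⟨b + c, ?_⟩
    have := I.add_mem hb hc
    have e : u * E - δ * b + (v * E - δ * c) = (u + v) * E - δ * (b + c) := by ring
    rwa [e] at this
  zero_mem' := ⟨0, by simp⟩
  smul_mem' := by
    rintro a u ⟨b, hb⟩
    refine ⟨a * b, ?_⟩
    have := I.mul_mem_left a hb
    have e : a * (u * E - δ * b) = a • u * E - δ * (a * b) := by rw [smul_eq_mul]; ring
    rwa [e] at this

theorem mem_den {I : Ideal (MvPolynomial ι ℂ)} {E δ u : MvPolynomial ι ℂ} :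
    u ∈ den I E δ ↔ ∃ b, u * E - δ * b ∈ I := Iff.rfl

/-- an ideal without nonzero common zeros contains all forms of large degree. -/
theorem exists_degree (U : Ideal (MvPolynomial ι ℂ)) (hU : ∀ x ∈ cone U, x = 0) :
    ∃ N : ℕ, ∀ j, N ≤ j → ∀ f : MvPolynomial ι ℂ, f.IsHomogeneous j → f ∈ U := by
  have h1 : ∀ i : ι, ∃ n : ℕ, (X i : MvPolynomial ι ℂ) ^ n ∈ U := by
    intro i
    have : (X i : MvPolynomial ι ℂ) ∈ U.radical := by
      rw [← vanishingIdeal_zeroLocus_eq_radical (K := ℂ) U, mem_vanishingIdeal_iff]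
      intro x hx
      rw [← cone_eq_zeroLocus] at hx
      rw [hU x hx]
      simp
    exact this
  choose n hn using h1
  refine ⟨∑ i, n i + 1, fun j hj f hf => ?_⟩
  rw [f.as_sum]
  refine U.sum_mem fun m hm => ?_
  have hm' : ∑ i, m i = j := by
    rw [hf.degree_eq_sum_deg_support hm]
    refine (Finset.sum_subset (Finset.subset_univ _) ?_).symm
    intro i _ hi
    simpa using hi
  obtain ⟨i, hi⟩ : ∃ i, n i ≤ m i := by
    by_contra hcon
    push Not at hcon
    have : ∑ i, m i ≤ ∑ i, n i := Finset.sum_le_sum fun i _ => (hcon i).le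
    omega
  have h2 : monomial m (coeff m f) = monomial (m - Finsupp.single i (n i)) (coeff m f) *
      (X i : MvPolynomial ι ℂ) ^ (n i) := by
    rw [X_pow_eq_monomial, monomial_mul, mul_one]
    congr 2
    ext k
    by_cases hk : k = i
    · subst hk; simp [hi]
    · simp [Ne.symm hk]
  rw [h2]
  exact U.mul_mem_left _ (hn i)

/-- graded pieces of the coordinate ring. -/
noncomputable def piece (I : Ideal (MvPolynomial ι ℂ)) (j : ℕ) :
    Submodule ℂ (MvPolynomial ι ℂ ⧸ I) :=
  (homogeneousSubmodule ι ℂ j).map (Ideal.Quotient.mkₐ ℂ I).toLinearMap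

instance (I : Ideal (MvPolynomial ι ℂ)) (j : ℕ) : Module.Finite ℂ (piece I j) := by
  rw [Module.Finite.iff_fg]
  exact (homogeneousSubmodule_fg ι ℂ j).map _

theorem mem_piece {I : Ideal (MvPolynomial ι ℂ)} {j : ℕ} {a : MvPolynomial ι ℂ ⧸ I} :
    a ∈ piece I j ↔ ∃ f : MvPolynomial ι ℂ, f.IsHomogeneous j ∧ Ideal.Quotient.mk I f = a := by
  simp [piece, Submodule.mem_map]

theorem hc_mul {δ : MvPolynomial ι ℂ} {n : ℕ} (hδ : δ.IsHomogeneous n) (b : MvPolynomial ι ℂ)
    (k : ℕ) : homogeneousComponent (n + k) (δ * b) = δ * homogeneousComponent k b := by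
  have h1 : ∀ i, homogeneousComponent (n + k) (δ * homogeneousComponent i b) =
      if n + k = n + i then δ * homogeneousComponent i b else 0 := fun i =>
    homogeneousComponent_of_mem (hδ.mul (homogeneousComponent_isHomogeneous i b))
  conv_lhs => rw [← sum_homogeneousComponent b]
  rw [Finset.mul_sum, map_sum]
  simp_rw [h1]
  by_cases h2 : k ≤ b.totalDegree
  · rw [Finset.sum_eq_single k]
    · rw [if_pos rfl]
    · intro i _ hi
      rw [if_neg (by omega)]
    · intro hm
      exact absurd (Finset.mem_range.2 (by omega)) hm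
  · rw [homogeneousComponent_eq_zero _ _ (by omega), mul_zero]
    refine Finset.sum_eq_zero fun i hi => ?_
    have := Finset.mem_range.1 hi
    rw [if_neg (by omega)]

theorem neg_degree {I : Ideal (MvPolynomial ι ℂ)} (hI : I.IsPrime)
    (hh : ∀ f ∈ I, ∀ d, homogeneousComponent d f ∈ I)
    (hdim : (1 : WithBot ℕ∞) < ringKrullDim (MvPolynomial ι ℂ ⧸ I))
    {E δ : MvPolynomial ι ℂ} {a m : ℕ} (hm : 0 < m) (hE : E.IsHomogeneous a)
    (hδ : δ.IsHomogeneous (a + m))
    (hreg : ∀ p ∈ cone I, p ≠ 0 → ∃ u b, eval p u ≠ 0 ∧ u * E - δ * b ∈ I) : E ∈ I := by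
  by_contra hEI
  have hdom : IsDomain (MvPolynomial ι ℂ ⧸ I) := Ideal.Quotient.isDomain I
  -- large degrees
  obtain ⟨N, hN⟩ := exists_degree (den I E δ) (by
    intro x hx
    by_contra hx0
    by_cases hxI : x ∈ cone I
    · obtain ⟨u, b, hu, hub⟩ := hreg x hxI hx0
      exact hu (hx u ⟨b, hub⟩)
    · have : ∃ f ∈ I, eval x f ≠ 0 := by
        by_contra hcon
        push Not at hcon
        exact hxI hcon
      obtain ⟨f, hf, hfx⟩ := this
      exact hfx (hx f ⟨0, by simpa using I.mul_mem_right E hf⟩))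
  set j := N + m with hj
  have key : ∀ f : MvPolynomial ι ℂ, f.IsHomogeneous j →
      ∃ b : MvPolynomial ι ℂ, b.IsHomogeneous N ∧ f * E - δ * b ∈ I := by
    intro f hf
    obtain ⟨b, hb⟩ := mem_den.1 (hN j (by omega) f hf)
    refine ⟨homogeneousComponent N b, homogeneousComponent_isHomogeneous _ _, ?_⟩
    have h1 := hh _ hb (j + a)
    have e1 : homogeneousComponent (j + a) (f * E) = f * E :=
      homogeneousComponent_of_mem (hf.mul hE) |>.trans (if_pos rfl)
    have e2 : homogeneousComponent (j + a) (δ * b) = δ * homogeneousComponent N b := by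
      rw [show j + a = (a + m) + N by omega]
      exact hc_mul hδ b N
    rw [map_sub, e1, e2] at h1
    exact h1
  -- comparison of dimensions
  let mul (c : MvPolynomial ι ℂ) : (MvPolynomial ι ℂ ⧸ I) →ₗ[ℂ] (MvPolynomial ι ℂ ⧸ I) :=
    LinearMap.mulLeft ℂ (Ideal.Quotient.mk I c)
  have hinj : ∀ c, c ∉ I → Function.Injective (mul c) := by
    intro c hc
    have : Ideal.Quotient.mk I c ≠ 0 := fun h => hc (Ideal.Quotient.eq_zero_iff_mem.1 h)
    intro x y hxy
    exact mul_left_cancel₀ this hxy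
  have hle1 : (piece I j).map (mul E) ≤ (piece I N).map (mul δ) := by
    rintro _ ⟨x, hx, rfl⟩
    obtain ⟨f, hf, rfl⟩ := mem_piece.1 hx
    obtain ⟨b, hb, hfb⟩ := key f hf
    refine ⟨Ideal.Quotient.mk I b, mem_piece.2 ⟨b, hb, rfl⟩, ?_⟩
    change Ideal.Quotient.mk I δ * Ideal.Quotient.mk I b =
      Ideal.Quotient.mk I E * Ideal.Quotient.mk I f
    rw [← map_mul, ← map_mul]
    apply Eq.symm
    rw [Ideal.Quotient.eq]
    rw [mul_comm E f]
    exact hfb
  have hfin1 : Module.finrank ℂ (piece I j) ≤ Module.finrank ℂ (piece I N) := by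
    calc Module.finrank ℂ (piece I j) = Module.finrank ℂ ((piece I j).map (mul E)) :=
          (Submodule.equivMapOfInjective _ (hinj E hEI) _).finrank_eq
      _ ≤ Module.finrank ℂ ((piece I N).map (mul δ)) := Submodule.finrank_mono hle1
      _ ≤ Module.finrank ℂ (piece I N) := Submodule.finrank_map_le _ _
  -- a variable not in `I`
  obtain ⟨i, hi⟩ : ∃ i : ι, (X i : MvPolynomial ι ℂ) ∉ I := by
    by_contra hcon
    push Not at hcon
    obtain ⟨x, hx, hx0, -⟩ := exists_ne_zero I hI hh (fun _ : Fin 0 => (0 : MvPolynomial ι ℂ))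
      (by intro b; exact b.elim0) (by
        simp only [Fintype.card_fin, Nat.cast_zero]
        exact lt_of_le_of_lt (by norm_num) hdim)
    apply hx0
    funext i
    simpa using hx _ (hcon i)
  have hle2 : (piece I N).map (mul (X i ^ m)) ≤ piece I j := by
    rintro _ ⟨x, hx, rfl⟩
    obtain ⟨f, hf, rfl⟩ := mem_piece.1 hx
    refine mem_piece.2 ⟨X i ^ m * f, ?_, ?_⟩
    · have := ((isHomogeneous_X ℂ i).pow m).mul hf
      rwa [one_mul, add_comm] at this
    · change _ = Ideal.Quotient.mk I (X i ^ m) * Ideal.Quotient.mk I f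
      rw [← map_mul]
  have hXm : (X i : MvPolynomial ι ℂ) ^ m ∉ I := fun h => hi (hI.mem_of_pow_mem m h)
  have heq : (piece I N).map (mul (X i ^ m)) = piece I j := by
    apply Submodule.eq_of_le_of_finrank_le hle2
    rw [← (Submodule.equivMapOfInjective _ (hinj _ hXm) (piece I N)).finrank_eq]
    exact hfin1
  obtain ⟨x, hx, hx0, hxi⟩ := exists_ne_zero I hI hh
    (fun _ : Fin 1 => (X i : MvPolynomial ι ℂ)) (by intro b; simp) (by
      simpa using hdim)
  obtain ⟨k, hk⟩ := Function.ne_iff.1 hx0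
  have h1 : Ideal.Quotient.mk I (X k ^ j) ∈ piece I j :=
    mem_piece.2 ⟨X k ^ j, by simpa using (isHomogeneous_X ℂ k).pow j, rfl⟩
  rw [← heq] at h1
  obtain ⟨y, hy, hyk⟩ := h1
  obtain ⟨f, hf, rfl⟩ := mem_piece.1 hy
  change Ideal.Quotient.mk I (X i ^ m) * Ideal.Quotient.mk I f = _ at hyk
  rw [← map_mul, Ideal.Quotient.eq] at hyk
  have h2 := hx _ hyk
  have h3 : x i = 0 := by simpa using hxi 0
  rw [map_sub, map_mul, map_pow, map_pow, eval_X, eval_X, h3, zero_pow hm.ne', zero_mul,
    zero_sub, neg_eq_zero] at h2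
  exact hk (pow_eq_zero_iff (by omega) |>.1 h2)

end H46.Hart
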