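import Pool.Agent.H46.Hart.Act
import Pool.Agent.H46.Hart.Neg

/-!
# The Jacobian derivation of a reflection group
-/

open MvPolynomial

set_option linter.unusedSectionVars false

namespace H46.Hart

open H89.Hart

variable {ι : Type*} [Fintype ι] [DecidableEq ι]

variable {G : Subgroup (Aut ι)} {I : Ideal (MvPolynomial ι ℂ)} {r : ℕ}
  {h : ι → MvPolynomial ι ℂ} {d : ι → ℕ}

/-- every conormal vector is the differential of an invariant equation. -/
theorem mem_N_inv (hG : RData G h d) (hX : GVar G I r) {p σ : ι → ℂ} (hp : p ∈ cone I)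
    (hσ : σ ∈ N I p) : ∃ F ∈ I, Inv G F ∧ dif F p = σ := by
  obtain ⟨f, hf, rfl⟩ := mem_N.1 hσ
  have h1 := le_invI hG hX hf
  refine Submodule.span_induction (p := fun f _ => ∃ F ∈ I, Inv G F ∧ dif F p = dif f p)
    ?_ ?_ ?_ ?_ h1
  · rintro F ⟨hF, hinv⟩
    exact ⟨F, hF, hinv, rfl⟩
  · exact ⟨0, I.zero_mem, fun g _ x => by simp, rfl⟩
  · rintro f f' _ _ ⟨F, hF, hFi, hFd⟩ ⟨F', hF', hFi', hFd'⟩
    refine ⟨F + F', I.add_mem hF hF', fun g hg x => ?_, ?_⟩
    · rw [map_add, map_add, hFi g hg x, hFi' g hg x]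
    · rw [dif_add, dif_add, hFd, hFd']
  · rintro a f hfs ⟨F, hF, hFi, hFd⟩
    have hfI : f ∈ I := by
      have hle : Ideal.span {F | F ∈ I ∧ Inv G F} ≤ I := by
        rw [Ideal.span_le]
        rintro F ⟨hF, -⟩
        exact hF
      exact hle hfs
    refine ⟨C (eval p a) * F, I.mul_mem_left _ hF, fun g hg x => ?_, ?_⟩
    · rw [map_mul, map_mul, hFi g hg x, eval_C, eval_C]
    · rw [← smul_eq_C_mul, dif_smul, hFd, smul_eq_mul, dif_mul, hp f hfI, zero_smul, add_zero]

/-- a point where all invariant equations vanish is in the cone. -/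
theorem mem_cone_of_inv (hG : RData G h d) (hX : GVar G I r) {p : ι → ℂ}
    (hp : ∀ F ∈ I, Inv G F → eval p F = 0) : p ∈ cone I := by
  intro f hf
  have h1 : invI G I ≤ RingHom.ker (eval p) := by
    rw [invI, Ideal.span_le]
    rintro F ⟨hF, hinv⟩
    exact RingHom.mem_ker.2 (hp F hF hinv)
  exact RingHom.mem_ker.1 (h1 (le_invI hG hX hf))

/-- invariants are polynomials in the basic invariants. -/
theorem exists_aeval (hG : RData G h d) {F : MvPolynomial ι ℂ} (hF : Inv G F) :
    ∃ Q : MvPolynomial ι ℂ, aeval h Q = F := by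
  have := hG.gen F hF
  rw [Algebra.adjoin_range_eq_range_aeval] at this
  exact this

theorem inv_aeval (hG : RData G h d) (Q : MvPolynomial ι ℂ) : Inv G (aeval h Q) := by
  intro g hg x
  have e : ∀ y : ι → ℂ, eval y (aeval h Q) = eval (fun k => eval y (h k)) Q := by
    intro y
    rw [← aeval_eq_eval, ← aeval_eq_eval]
    change (aeval y) (aeval h Q) = (aeval fun k => eval y (h k)) Q
    rw [← AlgHom.comp_apply, comp_aeval]
    rfl
  rw [e, e]
  congr 2
  funext k
  exact hG.inv k g hg x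

/-- the values of the basic invariants. -/
noncomputable def hv (h : ι → MvPolynomial ι ℂ) (y : ι → ℂ) : ι → ℂ := fun k => eval y (h k)

theorem eval_aeval (h : ι → MvPolynomial ι ℂ) (y : ι → ℂ) (Q : MvPolynomial ι ℂ) :
    eval y (aeval h Q) = eval (hv h y) Q := by
  rw [← aeval_eq_eval, ← aeval_eq_eval]
  change (aeval y) (aeval h Q) = (aeval fun k => eval y (h k)) Q
  rw [← AlgHom.comp_apply, comp_aeval]
  rfl

theorem pderiv_aeval (h : ι → MvPolynomial ι ℂ) (Q : MvPolynomial ι ℂ) (i : ι) :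
    pderiv i (aeval h Q) = ∑ k, aeval h (pderiv k Q) * pderiv i (h k) := by
  induction Q using MvPolynomial.induction_on with
  | C c => simp
  | add f g hf hg =>
    simp only [map_add, add_mul, Finset.sum_add_distrib, hf, hg]
  | mul_X f j hf =>
    rw [map_mul, aeval_X, Derivation.leibniz, hf, smul_eq_mul, smul_eq_mul]
    simp only [Derivation.leibniz, smul_eq_mul, map_add, map_mul, aeval_X, add_mul,
      Finset.sum_add_distrib, pderiv_X, Finset.mul_sum]
    congr 1
    · rw [Finset.sum_eq_single j]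
      · simp
      · intro k _ hk
        simp [Ne.symm hk]
      · simp
    · refine Finset.sum_congr rfl fun k _ => ?_
      ring

theorem dif_aeval (h : ι → MvPolynomial ι ℂ) (Q : MvPolynomial ι ℂ) (p : ι → ℂ) :
    dif (aeval h Q) p = ∑ k, eval (hv h p) (pderiv k Q) • dif (h k) p := by
  funext i
  simp only [dif, pderiv_aeval, map_sum, map_mul, eval_aeval, Finset.sum_apply, Pi.smul_apply,
    smul_eq_mul]

/-- the Jacobian matrix. -/
noncomputable def jac (h : ι → MvPolynomial ι ℂ) : Matrix ι ι (MvPolynomial ι ℂ) :=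
  Matrix.of fun k i => pderiv i (h k)

/-- the derivation `det(dh) · ∂/∂h_{k₀}`. -/
noncomputable def DD (h : ι → MvPolynomial ι ℂ) (k₀ : ι) (f : MvPolynomial ι ℂ) :
    MvPolynomial ι ℂ := ((jac h).updateRow k₀ fun i => pderiv i f).det

theorem DD_add (k₀ : ι) (f g : MvPolynomial ι ℂ) : DD h k₀ (f + g) = DD h k₀ f + DD h k₀ g := by
  rw [DD, DD, DD, ← Matrix.det_updateRow_add]
  congr 2
  funext i
  simp

theorem DD_mul (k₀ : ι) (f g : MvPolynomial ι ℂ) :
    DD h k₀ (f * g) = f * DD h k₀ g + g * DD h k₀ f := by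
  rw [DD, DD, DD, ← Matrix.det_updateRow_smul, ← Matrix.det_updateRow_smul,
    ← Matrix.det_updateRow_add]
  congr 2
  funext i
  simp [Derivation.leibniz]

theorem DD_C (k₀ : ι) (c : ℂ) : DD h k₀ (C c) = 0 := by
  rw [DD]
  apply Matrix.det_eq_zero_of_row_eq_zero k₀
  intro j
  simp

theorem DD_h (k₀ k : ι) : DD h k₀ (h k) = if k = k₀ then (jac h).det else 0 := by
  rw [DD]
  split_ifs with hk
  · subst hk
    congr 1
    ext i j
    by_cases hi : i = k
    · subst hi; simp [jac]
    · simp [hi]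
  · exact Matrix.det_updateRow_eq_zero (M := jac h) hk

theorem DD_sum {α : Type*} (k₀ : ι) (s : Finset α) (f : α → MvPolynomial ι ℂ) :
    DD h k₀ (∑ a ∈ s, f a) = ∑ a ∈ s, DD h k₀ (f a) := by
  classical
  induction s using Finset.induction_on with
  | empty => simpa using DD_C (h := h) k₀ 0
  | insert a s ha ih => rw [Finset.sum_insert ha, Finset.sum_insert ha, DD_add, ih]

theorem DD_aeval (k₀ : ι) (Q : MvPolynomial ι ℂ) :
    DD h k₀ (aeval h Q) = (jac h).det * aeval h (pderiv k₀ Q) := by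
  induction Q using MvPolynomial.induction_on with
  | C c =>
    rw [pderiv_C, map_zero, mul_zero]
    simpa using DD_C (h := h) k₀ c
  | add f g hf hg => rw [map_add, DD_add, hf, hg, map_add, map_add, mul_add]
  | mul_X f j hf =>
    rw [map_mul, aeval_X, DD_mul, hf, DD_h]
    simp only [Derivation.leibniz, smul_eq_mul, map_add, map_mul, aeval_X, pderiv_X]
    split_ifs with hj
    · subst hj; simp; ring
    · simp [Ne.symm hj]; ring

/-- the Jacobian does not vanish at points with trivial stabiliser. -/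
theorem jac_ne_zero (hG : RData G h d) {p : ι → ℂ} (hp : ∀ g ∈ G, g p = p → g = 1) :
    eval p (jac h).det ≠ 0 := by
  classical
  have := hG.finite
  have := Fintype.ofFinite G
  intro h0
  have h1 : ((jac h).map (eval p)).det = 0 := by
    have := (eval p).map_det (jac h)
    rw [h0] at this
    exact this.symm
  obtain ⟨u, hu, hu0⟩ := Matrix.exists_mulVec_eq_zero_iff.2 h1
  obtain ⟨i, hi⟩ := Function.ne_iff.1 hu
  let T : Finset (ι → ℂ) := (Finset.univ.image (fun g : G => (g : Aut ι) p)).erase p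
  obtain ⟨φ, h1, h2⟩ := exists_interp p T (by simp [T])
  let f : MvPolynomial ι ℂ := φ * (φ * (X i - C (p i)))
  let F : MvPolynomial ι ℂ := ∑ g : G, act (g : Aut ι) f
  have hF : Inv G F := inv_sum_act f
  have hdF : dif F p ⬝ᵥ u = u i := by
    simp only [F]
    rw [dif_sum, sum_dotProduct, Finset.sum_eq_single (1 : G)]
    · rw [dif_act]
      change dif f p ⬝ᵥ u = u i
      simp only [f]
      have hC : dif (C (p i) : MvPolynomial ι ℂ) p = 0 := by funext j; simp [dif]
      rw [dif_mul, dif_mul, h1, dif_sub, dif_X, hC]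
      simp
    · intro g _ hg
      rw [dif_act]
      have hgp : (g : Aut ι) p ≠ p := fun h => hg (Subtype.ext (hp g g.2 h))
      have h3 : eval ((g : Aut ι) p) φ = 0 := h2 _ (Finset.mem_erase.2 ⟨hgp,
        Finset.mem_image_of_mem _ (Finset.mem_univ _)⟩)
      simp only [f]
      rw [dif_mul, h3, map_mul, h3]
      simp
    · intro h; exact absurd (Finset.mem_univ _) h
  obtain ⟨Q, hQ⟩ := exists_aeval hG hF
  rw [← hQ, dif_aeval, sum_dotProduct] at hdF
  apply hi
  rw [← hdF]
  apply Finset.sum_eq_zero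
  intro k _
  rw [smul_dotProduct]
  have h4 : dif (h k) p ⬝ᵥ u = 0 := congrFun hu0 k
  rw [h4, smul_zero]

/-- points with trivial stabiliser exist. -/
theorem exists_free (hG : RData G h d) (hX : GVar G I r) :
    ∃ p ∈ cone I, ∀ g ∈ G, g p = p → g = 1 := by
  classical
  have := hG.finite
  have := Fintype.ofFinite G
  have h1 : ∀ g : G, ∃ f : MvPolynomial ι ℂ, f ∉ I ∧
      ∀ p, (g : Aut ι) p = p → (g : Aut ι) ≠ 1 → eval p f = 0 := by
    intro g
    by_cases hg : (g : Aut ι) = 1
    · exact ⟨1, (Ideal.ne_top_iff_one I).1 hX.smooth.prime.ne_top, fun p _ h => absurd hg h⟩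
    · have h2 : ∃ x ∈ cone I, (g : Aut ι) x ≠ x := by
        by_contra hcon
        push Not at hcon
        exact hg (hX.faithful g g.2 hcon)
      obtain ⟨x, hx, hgx⟩ := h2
      obtain ⟨i, hi⟩ := Function.ne_iff.1 hgx
      refine ⟨act (g : Aut ι) (X i) - X i, ?_, ?_⟩
      · intro hmem
        have := hx _ hmem
        rw [map_sub, eval_act, eval_X, eval_X] at this
        exact hi (sub_eq_zero.1 this)
      · intro p hp _
        rw [map_sub, eval_act, hp, sub_self]
  choose f hf1 hf2 using h1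
  have h3 : ∏ g : G, f g ∉ I := by
    intro hmem
    obtain ⟨g, -, hg⟩ := (hX.smooth.prime.prod_mem_iff).1 hmem
    exact hf1 g hg
  have h4 : ∃ p ∈ cone I, eval p (∏ g : G, f g) ≠ 0 := by
    by_contra hcon
    push Not at hcon
    exact h3 (mem_of_forall_cone I hX.smooth.prime _ hcon)
  obtain ⟨p, hp, hne⟩ := h4
  refine ⟨p, hp, fun g hg hgp => ?_⟩
  by_contra hg1
  apply hne
  rw [map_prod]
  exact Finset.prod_eq_zero (Finset.mem_univ (⟨g, hg⟩ : G)) (hf2 ⟨g, hg⟩ p hgp hg1)

theorem jac_notMem (hG : RData G h d) (hX : GVar G I r) : (jac h).det ∉ I := by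
  obtain ⟨p, hp, hfree⟩ := exists_free hG hX
  intro hmem
  exact jac_ne_zero hG hfree (hp _ hmem)

theorem homog_det (A : Matrix ι ι (MvPolynomial ι ℂ))
    (e : ι → ℕ) (hA : ∀ i j, (A i j).IsHomogeneous (e i)) :
    A.det.IsHomogeneous (∑ i, e i) := by
  rw [Matrix.det_apply]
  apply IsHomogeneous.sum
  intro τ _
  have h1 : (∏ i, A (τ i) i).IsHomogeneous (∑ i, e i) := by
    have := IsHomogeneous.prod Finset.univ (fun i => A (τ i) i) (fun i => e (τ i))
      (fun i _ => hA (τ i) i)
    rwa [Equiv.sum_comp τ e] at this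
  rw [← mem_homogeneousSubmodule] at h1 ⊢
  rw [Units.smul_def]
  exact zsmul_mem h1 _

theorem jac_homog (hG : RData G h d) : (jac h).det.IsHomogeneous (∑ i, (d i - 1)) :=
  homog_det _ _ fun i _ => (hG.hom i).pderiv

theorem DD_homog (hG : RData G h d) (k₀ : ι) {f : MvPolynomial ι ℂ} {e : ℕ}
    (hf : f.IsHomogeneous e) :
    (DD h k₀ f).IsHomogeneous (∑ i, Function.update (fun i => d i - 1) k₀ (e - 1) i) := by
  apply homog_det
  intro i j
  by_cases hi : i = k₀
  · subst hi
    rw [Matrix.updateRow_self, Function.update_self]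
    exact hf.pderiv
  · rw [Matrix.updateRow_ne hi, Function.update_of_ne hi]
    exact (hG.hom i).pderiv

/-- the derivation modulo `I` of an element of `I` is, locally, divisible by the Jacobian. -/
theorem DD_reg (hG : RData G h d) (hX : GVar G I r) (k₀ : ι) {f : MvPolynomial ι ℂ} (hf : f ∈ I)
    {p : ι → ℂ} (hp : p ∈ cone I) (hp0 : p ≠ 0) :
    ∃ u b, eval p u ≠ 0 ∧ u * DD h k₀ f - (jac h).det * b ∈ I := by
  have hr := hX.smooth.rank p hp hp0
  let b := (Module.finBasisOfFinrankEq ℂ (N I p) hr)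
  choose F hFI hFinv hFd using fun j => mem_N_inv hG hX hp (b j).2
  choose Q hQ using fun j => exists_aeval hG (hFinv j)
  have hli : LinearIndependent ℂ (fun j => dif (F j) p) := by
    simp only [hFd]
    exact b.linearIndependent.map' (N I p).subtype (Submodule.ker_subtype _)
  obtain ⟨u, hu, huf⟩ := L0 hX.smooth F hFI hp hp0 hli hf
  obtain ⟨a, ha⟩ := (Ideal.mem_span_range_iff_exists_fun).1 huf
  refine ⟨u, ∑ j, a j * aeval h (pderiv k₀ (Q j)), hu, ?_⟩
  have h1 : DD h k₀ (u * f) = ∑ j, (a j * ((jac h).det * aeval h (pderiv k₀ (Q j))) +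
      F j * DD h k₀ (a j)) := by
    rw [← ha, DD_sum]
    refine Finset.sum_congr rfl fun j _ => ?_
    rw [DD_mul]
    congr 2
    rw [← hQ j, DD_aeval]
  rw [DD_mul] at h1
  have h2 : u * DD h k₀ f - (jac h).det * ∑ j, a j * aeval h (pderiv k₀ (Q j)) =
      ∑ j, F j * DD h k₀ (a j) - f * DD h k₀ u := by
    rw [eq_sub_iff_add_eq.2 h1, Finset.sum_add_distrib, Finset.mul_sum]
    have : ∀ j, (jac h).det * (a j * aeval h (pderiv k₀ (Q j))) =
      a j * ((jac h).det * aeval h (pderiv k₀ (Q j))) := fun j => by ring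
    simp only [this]
    ring
  rw [h2]
  exact I.sub_mem (I.sum_mem fun j _ => I.mul_mem_right _ (hFI j)) (I.mul_mem_right _ hf)

/-- forms of low degree in `I` are killed modulo `I`. -/
theorem DD_low (hG : RData G h d) (hX : GVar G I r)
    (hdim : (1 : WithBot ℕ∞) < ringKrullDim (MvPolynomial ι ℂ ⧸ I)) (k₀ : ι)
    {f : MvPolynomial ι ℂ} (hf : f ∈ I) {e : ℕ} (hfe : f.IsHomogeneous e) (he : e < d k₀) :
    DD h k₀ f ∈ I := by
  rcases Nat.eq_zero_or_pos e with rfl | he0
  · have h1 : ∀ i, pderiv i f = 0 := by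
      intro i
      have h2 := (totalDegree_zero_iff_isHomogeneous ι).2 hfe
      rw [totalDegree_eq_zero_iff_eq_C.1 h2]
      simp
    have : DD h k₀ f = 0 := by
      rw [DD]
      apply Matrix.det_eq_zero_of_row_eq_zero k₀
      intro j
      simp [h1]
    rw [this]
    exact I.zero_mem
  · refine neg_degree hX.smooth.prime hX.smooth.homog hdim (m := d k₀ - e)
      (by omega) (DD_homog hG k₀ hfe) (δ := (jac h).det) ?_ ?_
    · have h1 := jac_homog hG
      have h2 : ∑ i, (d i - 1) =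
          ∑ i, Function.update (fun i => d i - 1) k₀ (e - 1) i + (d k₀ - e) := by
        have h3 := Finset.sum_eq_add_sum_sdiff_singleton_of_mem (Finset.mem_univ k₀)
          (fun i => d i - 1)
        rw [Finset.sum_update_of_mem (Finset.mem_univ k₀), h3]
        omega
      rw [← h2]
      exact h1
    · intro p hp hp0
      exact DD_reg hG hX k₀ hf hp hp0

/-- the derivation preserves `I`. -/
theorem DD_mem (hG : RData G h d) (hX : GVar G I r)
    (hdim : (1 : WithBot ℕ∞) < ringKrullDim (MvPolynomial ι ℂ ⧸ I)) (k₀ : ι)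
    (f : Fin r → MvPolynomial ι ℂ) (hf : ∀ j, f j ∈ I) (e : Fin r → ℕ)
    (hfe : ∀ j, (f j).IsHomogeneous (e j)) (he : ∀ j, e j < d k₀) {x₀ : ι → ℂ}
    (hx₀ : x₀ ∈ cone I) (hx₀0 : x₀ ≠ 0) (hli : LinearIndependent ℂ (fun j => dif (f j) x₀))
    {F : MvPolynomial ι ℂ} (hF : F ∈ I) : DD h k₀ F ∈ I := by
  obtain ⟨u, hu, huF⟩ := L0 hX.smooth f hf hx₀ hx₀0 hli hF
  obtain ⟨a, ha⟩ := (Ideal.mem_span_range_iff_exists_fun).1 huF
  have h1 : DD h k₀ (u * F) ∈ I := by
    rw [← ha, DD_sum]
    refine I.sum_mem fun j _ => ?_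
    rw [DD_mul]
    exact I.add_mem (I.mul_mem_left _ (DD_low hG hX hdim k₀ (hf j) (hfe j) (he j)))
      (I.mul_mem_right _ (hf j))
  rw [DD_mul] at h1
  have h2 : u * DD h k₀ F ∈ I := by
    have := I.sub_mem h1 (I.mul_mem_right (DD h k₀ u) hF)
    simpa using this
  exact (hX.smooth.prime.mem_or_mem h2).resolve_left fun h => hu (hx₀ _ h)

/-- the ideal of relations is stable under the partial derivative. -/
theorem pderiv_rel (hG : RData G h d) (hX : GVar G I r) (k₀ : ι)
    (hD : ∀ F ∈ I, DD h k₀ F ∈ I) {Q : MvPolynomial ι ℂ} (hQ : aeval h Q ∈ I) :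
    aeval h (pderiv k₀ Q) ∈ I := by
  have h1 := hD _ hQ
  rw [DD_aeval] at h1
  exact (hX.smooth.prime.mem_or_mem h1).resolve_left (jac_notMem hG hX)

end H46.Hart
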