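import Pool.Agent.H46.Hart.Gen

/-!
# Varieties stable under a reflection group with low degree equations
-/

open MvPolynomial

set_option linter.unusedSectionVars false

namespace H46.Hart

open H89.Hart

variable {ι : Type*} [Fintype ι] [DecidableEq ι]

variable {G : Subgroup (Aut ι)} {I : Ideal (MvPolynomial ι ℂ)} {r : ℕ}
  {h : ι → MvPolynomial ι ℂ} {d : ι → ℕ}

/-- the polynomial ring is integral over the basic invariants. -/
theorem isIntegral_aeval (hG : RData G h d) :
    ((aeval h : MvPolynomial ι ℂ →ₐ[ℂ] MvPolynomial ι ℂ) :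
      MvPolynomial ι ℂ →+* MvPolynomial ι ℂ).IsIntegral := by
  classical
  have := hG.finite
  have := Fintype.ofFinite G
  intro y
  let P : Polynomial (MvPolynomial ι ℂ) :=
    ∏ g : G, (Polynomial.X - Polynomial.C (act (g : Aut ι) y))
  have hmon : P.Monic := Polynomial.monic_prod_of_monic _ _ fun g _ => Polynomial.monic_X_sub_C _
  have hinv : ∀ g ∈ G, P.map (act g : MvPolynomial ι ℂ →+* MvPolynomial ι ℂ) = P := by
    intro g hg
    simp only [P]
    rw [Polynomial.map_prod]
    simp only [Polynomial.map_sub, Polynomial.map_X, Polynomial.map_C]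
    refine (Finset.prod_congr rfl fun g' _ => ?_).trans
      (Equiv.prod_comp (Equiv.mulRight (⟨g, hg⟩ : G))
        (fun g' : G => Polynomial.X - Polynomial.C (act (g' : Aut ι) y)))
    have e : act g (act (g' : Aut ι) y) = act ((g' : Aut ι) * g) y := (act_mul _ _ _).symm
    exact congrArg (fun z => Polynomial.X - Polynomial.C z) e
  have hlift : P ∈ Polynomial.lifts ((aeval h : MvPolynomial ι ℂ →ₐ[ℂ] MvPolynomial ι ℂ) :
      MvPolynomial ι ℂ →+* MvPolynomial ι ℂ) := by
    rw [Polynomial.lifts_iff_coeff_lifts]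
    intro n
    have : Inv G (P.coeff n) := by
      intro g hg x
      have h1 := congrArg (fun p => Polynomial.coeff p n) (hinv g hg)
      simp only [Polynomial.coeff_map] at h1
      rw [← eval_act]
      exact congrArg (eval x) h1
    obtain ⟨Q, hQ⟩ := exists_aeval hG this
    exact ⟨Q, hQ⟩
  obtain ⟨p, hp, -, hpm⟩ := Polynomial.lifts_and_natDegree_eq_and_monic hlift hmon
  refine ⟨p, hpm, ?_⟩
  rw [← Polynomial.eval_map, hp]
  simp only [P]
  rw [Polynomial.eval_prod]
  apply Finset.prod_eq_zero (Finset.mem_univ (1 : G))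
  simp [act_one]

/-- the dimension of the ring of invariants of the variety. -/
theorem dim_rel (hG : RData G h d) :
    ringKrullDim (MvPolynomial ι ℂ ⧸ I) ≤ ringKrullDim (MvPolynomial ι ℂ ⧸ rel h I) := by
  let φ : MvPolynomial ι ℂ →+* MvPolynomial ι ℂ :=
    ((aeval h : MvPolynomial ι ℂ →ₐ[ℂ] MvPolynomial ι ℂ) : MvPolynomial ι ℂ →+* MvPolynomial ι ℂ)
  let ψ : (MvPolynomial ι ℂ ⧸ rel h I) →+* (MvPolynomial ι ℂ ⧸ I) :=
    Ideal.quotientMap I φ le_rfl
  algebraize [ψ]
  have hint : Algebra.IsIntegral (MvPolynomial ι ℂ ⧸ rel h I) (MvPolynomial ι ℂ ⧸ I) := by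
    constructor
    intro y
    obtain ⟨y, rfl⟩ := Ideal.Quotient.mk_surjective y
    obtain ⟨p, hpm, hp⟩ := isIntegral_aeval hG y
    refine ⟨p.map (Ideal.Quotient.mk (rel h I)), hpm.map _, ?_⟩
    rw [Polynomial.eval₂_map]
    have e : (algebraMap (MvPolynomial ι ℂ ⧸ rel h I) (MvPolynomial ι ℂ ⧸ I)).comp
        (Ideal.Quotient.mk (rel h I)) = (Ideal.Quotient.mk I).comp φ := by
      ext x <;> rfl
    rw [e, ← Polynomial.hom_eval₂, hp, map_zero]
  exact ringKrullDim_le_of_integral

/-- the relations are generated by `r` elements. -/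
theorem rel_eq_span (hG : RData G h d)
    (hdim : ringKrullDim (MvPolynomial ι ℂ ⧸ I) + r = Fintype.card ι)
    (Q : Fin r → MvPolynomial ι ℂ) (m : Fin r → ℕ) (hQ : ∀ j, Q j ∈ rel h I)
    (hm : ∀ j, IsWeightedHomogeneous d (Q j) (m j))
    (hli : LinearIndependent ℂ (fun j => dif (Q j) 0)) :
    rel h I = Ideal.span (Set.range Q) := by
  obtain ⟨κ, hκ⟩ := exists_compl (fun j => dif (Q j) 0) hli
  have hr : r ≤ Fintype.card ι := by
    have := hli.fintype_card_le_finrank
    simpa using this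
  have hQspan : Ideal.span (Set.range Q) ≤ rel h I := by
    rw [Ideal.span_le]
    rintro _ ⟨j, rfl⟩
    exact hQ j
  have htop := adjoin_eq_top hG.pos Q m hm κ hκ
  let α : MvPolynomial (Fin (Fintype.card ι - r)) ℂ →ₐ[ℂ] MvPolynomial ι ℂ :=
    aeval fun i => X (κ i)
  have hsurj : ∀ a : MvPolynomial ι ℂ, ∃ P, a - α P ∈ Ideal.span (Set.range Q) := by
    intro a
    have ha : a ∈ Algebra.adjoin ℂ
        (Set.range Q ∪ Set.range fun i => (X (κ i) : MvPolynomial ι ℂ)) := by
      rw [htop]; trivial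
    induction ha using Algebra.adjoin_induction with
    | mem x hx =>
      rcases hx with ⟨j, rfl⟩ | ⟨i, rfl⟩
      · exact ⟨0, by rw [map_zero, sub_zero]; exact Ideal.subset_span ⟨j, rfl⟩⟩
      · exact ⟨X i, by simp [α]⟩
    | algebraMap c => exact ⟨C c, by simp [α, algebraMap_eq]⟩
    | add x y _ _ hx hy =>
      obtain ⟨P, hP⟩ := hx
      obtain ⟨P', hP'⟩ := hy
      refine ⟨P + P', ?_⟩
      have := Ideal.add_mem _ hP hP'
      rw [map_add]
      have e : x - α P + (y - α P') = x + y - (α P + α P') := by ring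
      rwa [e] at this
    | mul x y _ _ hx hy =>
      obtain ⟨P, hP⟩ := hx
      obtain ⟨P', hP'⟩ := hy
      refine ⟨P * P', ?_⟩
      rw [map_mul]
      have e : x * y - α P * α P' = y * (x - α P) + α P * (y - α P') := by ring
      rw [e]
      exact Ideal.add_mem _ (Ideal.mul_mem_left _ _ hP) (Ideal.mul_mem_left _ _ hP')
  -- no relation between the complementary variables
  have hker : ∀ P, α P ∈ rel h I → P = 0 := by
    intro P hP
    by_contra hP0
    let f : MvPolynomial (Fin (Fintype.card ι - r)) ℂ →+* (MvPolynomial ι ℂ ⧸ rel h I) :=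
      (Ideal.Quotient.mk (rel h I)).comp (α : _ →+* _)
    have hf : Function.Surjective f := by
      intro y
      obtain ⟨a, rfl⟩ := Ideal.Quotient.mk_surjective y
      obtain ⟨P', hP'⟩ := hsurj a
      refine ⟨P', ?_⟩
      apply Eq.symm
      change Ideal.Quotient.mk _ a = Ideal.Quotient.mk _ (α P')
      rw [Ideal.Quotient.eq]
      exact hQspan hP'
    have h1 := ringKrullDim_succ_le_of_surjective f hf (r := P)
      (mem_nonZeroDivisors_of_ne_zero hP0) (Ideal.Quotient.eq_zero_iff_mem.2 hP)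
    rw [MvPolynomial.ringKrullDim_of_isNoetherianRing] at h1
    simp only [ringKrullDim_eq_zero_of_field, Nat.card_eq_fintype_card, Fintype.card_fin,
      zero_add] at h1
    have h2 := dim_rel (I := I) hG
    have h3 : ringKrullDim (MvPolynomial ι ℂ ⧸ I) + 1 + r ≤
        ((Fintype.card ι - r : ℕ) : WithBot ℕ∞) + r := by
      gcongr
      exact (add_le_add_left h2 1).trans h1
    have h4 : ringKrullDim (MvPolynomial ι ℂ ⧸ I) + 1 + r = Fintype.card ι + 1 := by
      rw [← hdim]; ring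
    rw [h4] at h3
    have h5 : Fintype.card ι + 1 ≤ Fintype.card ι - r + r := by exact_mod_cast h3
    omega
  apply le_antisymm _ hQspan
  intro a ha
  obtain ⟨P, hP⟩ := hsurj a
  have h1 : α P ∈ rel h I := by
    have := (rel h I).sub_mem ha (hQspan hP)
    rwa [sub_sub_cancel] at this
  rw [hker P h1, map_zero, sub_zero] at hP
  exact hP

/-- **Main theorem.** -/
theorem main (hG : RData G h d) (hX : GVar G I r)
    (hdim : ringKrullDim (MvPolynomial ι ℂ ⧸ I) + r = Fintype.card ι)
    (hdim2 : (1 : WithBot ℕ∞) < ringKrullDim (MvPolynomial ι ℂ ⧸ I)) (k₀ : ι)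
    (f : Fin r → MvPolynomial ι ℂ) (hf : ∀ j, f j ∈ I) (e : Fin r → ℕ)
    (hfe : ∀ j, (f j).IsHomogeneous (e j)) (he : ∀ j, e j < d k₀) {x₀ : ι → ℂ}
    (hx₀ : x₀ ∈ cone I) (hx₀0 : x₀ ≠ 0) (hli : LinearIndependent ℂ (fun j => dif (f j) x₀)) :
    ∃ (F : Fin r → MvPolynomial ι ℂ) (m : Fin r → ℕ), (∀ j, (F j).IsHomogeneous (m j)) ∧
      (∀ j, Inv G (F j)) ∧ I = Ideal.span (Set.range F) ∧
      ∀ x ∈ cone I, x ≠ 0 → LinearIndependent ℂ (fun j => dif (F j) x) := by
  have hP : ∀ Q ∈ rel h I, pderiv k₀ Q ∈ rel h I := fun Q hQ =>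
    pderiv_rel hG hX k₀ (fun F hF => DD_mem hG hX hdim2 k₀ f hf e hfe he hx₀ hx₀0 hli hF) hQ
  obtain ⟨Q, m, hQ, hm, hQli⟩ := exists_rels hG hX (le_finrank hG hX hx₀ hP)
  have hspan := rel_eq_span hG hdim Q m hQ hm hQli
  refine ⟨fun j => aeval h (Q j), m, fun j => homog_of_whomog hG (hm j),
    fun j => inv_aeval hG _, ?_, ?_⟩
  · apply le_antisymm
    · refine (le_invI hG hX).trans ?_
      rw [invI, Ideal.span_le]
      rintro F ⟨hF, hinv⟩
      obtain ⟨A, rfl⟩ := exists_aeval hG hinv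
      have hA : A ∈ Ideal.span (Set.range Q) := by rw [← hspan]; exact hF
      obtain ⟨a, rfl⟩ := (Ideal.mem_span_range_iff_exists_fun).1 hA
      rw [map_sum]
      refine Ideal.sum_mem _ fun j _ => ?_
      rw [map_mul]
      exact Ideal.mul_mem_left _ _ (Ideal.subset_span ⟨j, rfl⟩)
    · rw [Ideal.span_le]
      rintro _ ⟨j, rfl⟩
      exact hQ j
  · intro x hx hx0
    have hle : N I x ≤ Submodule.span ℂ (Set.range fun j => dif (aeval h (Q j)) x) := by
      intro σ hσ
      obtain ⟨F, hF, hinv, rfl⟩ := mem_N_inv hG hX hx hσ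
      obtain ⟨A, rfl⟩ := exists_aeval hG hinv
      have hA : A ∈ Ideal.span (Set.range Q) := by rw [← hspan]; exact hF
      obtain ⟨a, rfl⟩ := (Ideal.mem_span_range_iff_exists_fun).1 hA
      rw [map_sum, dif_sum]
      refine Submodule.sum_mem _ fun j _ => ?_
      rw [map_mul, dif_mul, hx _ (hQ j), zero_smul, add_zero]
      exact Submodule.smul_mem _ _ (Submodule.subset_span ⟨j, rfl⟩)
    have h1 := Submodule.finrank_mono hle
    rw [hX.smooth.rank x hx hx0] at h1
    rw [linearIndependent_iff_card_le_finrank_span, Fintype.card_fin]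
    exact h1

end H46.Hart
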