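import Pool.Agent.H46.Hart.Jac

/-!
# The ideal of relations between basic invariants
-/

open MvPolynomial

set_option linter.unusedSectionVars false

namespace H46.Hart

open H89.Hart

variable {ι : Type*} [Fintype ι] [DecidableEq ι]

variable {G : Subgroup (Aut ι)} {I : Ideal (MvPolynomial ι ℂ)} {r : ℕ}
  {h : ι → MvPolynomial ι ℂ} {d : ι → ℕ}

/-- the relations satisfied by the basic invariants modulo `I`. -/
noncomputable def rel (h : ι → MvPolynomial ι ℂ) (I : Ideal (MvPolynomial ι ℂ)) :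
    Ideal (MvPolynomial ι ℂ) := I.comap (aeval h : MvPolynomial ι ℂ →ₐ[ℂ] MvPolynomial ι ℂ)

theorem mem_rel {Q : MvPolynomial ι ℂ} : Q ∈ rel h I ↔ aeval h Q ∈ I := Iff.rfl

theorem zero_mem_cone (hI : Smooth I r) {x : ι → ℂ} (hx : x ∈ cone I) : (0 : ι → ℂ) ∈ cone I := by
  have := smul_mem_cone hI hx 0
  rwa [zero_smul] at this

theorem eval_zero_homog {f : MvPolynomial ι ℂ} {e : ℕ} (hf : f.IsHomogeneous e) (he : 0 < e) :
    eval (0 : ι → ℂ) f = 0 := by
  have := eval_smul_homog hf 0 (0 : ι → ℂ)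
  rwa [zero_smul, zero_pow he.ne', zero_mul] at this

theorem hv_zero (hG : RData G h d) : hv h (0 : ι → ℂ) = 0 := by
  funext k
  exact eval_zero_homog (hG.hom k) (hG.pos k)

theorem rel_eval_zero (hG : RData G h d) (h0 : (0 : ι → ℂ) ∈ cone I) {Q : MvPolynomial ι ℂ}
    (hQ : Q ∈ rel h I) : eval (0 : ι → ℂ) Q = 0 := by
  have := h0 _ (mem_rel.1 hQ)
  rwa [eval_aeval, hv_zero hG] at this

theorem iterate_mem_rel {k₀ : ι} (hP : ∀ Q ∈ rel h I, pderiv k₀ Q ∈ rel h I)
    {Q : MvPolynomial ι ℂ} (hQ : Q ∈ rel h I) (j : ℕ) : (pderiv k₀)^[j] Q ∈ rel h I := by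
  induction j with
  | zero => exact hQ
  | succ j ih => rw [Function.iterate_succ_apply']; exact hP _ ih

theorem derivative_iterate_ln (k₀ : ι) (f : MvPolynomial ι ℂ) (j : ℕ) :
    Polynomial.derivative^[j] (ln 0 (Pi.single k₀ 1) f) =
      ln 0 (Pi.single k₀ 1) ((pderiv k₀)^[j] f) := by
  induction j with
  | zero => rfl
  | succ j ih =>
    rw [Function.iterate_succ_apply', ih, derivative_ln, Function.iterate_succ_apply',
      Finset.sum_eq_single k₀]
    · simp
    · intro i _ hi; simp [hi]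
    · simp

/-- Taylor expansion along a coordinate axis. -/
theorem eval_axis (k₀ : ι) (f : MvPolynomial ι ℂ)
    (hf : ∀ j, eval (0 : ι → ℂ) ((pderiv k₀)^[j] f) = 0) (c : ℂ) :
    eval (c • (Pi.single k₀ 1 : ι → ℂ)) f = 0 := by
  have h1 : ln 0 (Pi.single k₀ 1) f = 0 := by
    ext j
    have h2 := congrArg (fun p => Polynomial.coeff p 0) (derivative_iterate_ln k₀ f j)
    simp only [coeff_zero_ln, hf j, Polynomial.coeff_iterate_derivative, zero_add,
      Nat.descFactorial_self] at h2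
    rw [Polynomial.coeff_zero]
    rw [nsmul_eq_mul, mul_eq_zero, Nat.cast_eq_zero] at h2
    exact h2.resolve_left (Nat.factorial_ne_zero j)
  have := eval_ln 0 (Pi.single k₀ 1) f c
  rw [h1, zero_add, Polynomial.eval_zero] at this
  exact this.symm

theorem rel_eval_axis (hG : RData G h d) (h0 : (0 : ι → ℂ) ∈ cone I) {k₀ : ι}
    (hP : ∀ Q ∈ rel h I, pderiv k₀ Q ∈ rel h I) {Q : MvPolynomial ι ℂ} (hQ : Q ∈ rel h I)
    (c : ℂ) : eval (c • (Pi.single k₀ 1 : ι → ℂ)) Q = 0 :=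
  eval_axis k₀ Q (fun j => rel_eval_zero hG h0 (iterate_mem_rel hP hQ j)) c

theorem pderiv_comm (k i : ι) (f : MvPolynomial ι ℂ) :
    pderiv k (pderiv i f) = pderiv i (pderiv k f) := by
  by_cases hki : k = i
  · rw [hki]
  ext m
  rw [coeff_pderiv, coeff_pderiv, coeff_pderiv, coeff_pderiv]
  have e : m + Finsupp.single k 1 + Finsupp.single i 1 =
      m + Finsupp.single i 1 + Finsupp.single k 1 := by
    rw [add_assoc, add_assoc, add_comm (Finsupp.single k 1)]
  rw [e]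
  simp only [Finsupp.add_apply, Finsupp.single_eq_of_ne hki, Finsupp.single_eq_of_ne (Ne.symm hki),
    add_zero]
  ring

theorem dif_axis {k₀ : ι} (hP : ∀ Q ∈ rel h I, pderiv k₀ Q ∈ rel h I) {Q : MvPolynomial ι ℂ}
    (hQ : Q ∈ rel h I) (c : ℂ) :
    dif Q (c • (Pi.single k₀ 1 : ι → ℂ)) ∈ N (rel h I) 0 := by
  obtain ⟨l, hl⟩ := exists_equations (N (rel h I) 0)
  rw [hl]
  intro j
  have h1 : ∀ (y : ι → ℂ) (Q' : MvPolynomial ι ℂ), l j ⬝ᵥ dif Q' y =
      eval y (∑ k, C (l j k) * pderiv k Q') := by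
    intro y Q'
    simp [dotProduct, dif]
  rw [h1]
  apply eval_axis
  intro m
  have h2 : (pderiv k₀)^[m] (∑ k, C (l j k) * pderiv k Q) =
      ∑ k, C (l j k) * pderiv k ((pderiv k₀)^[m] Q) := by
    induction m with
    | zero => rfl
    | succ m ih =>
      rw [Function.iterate_succ_apply', ih, map_sum]
      refine Finset.sum_congr rfl fun k _ => ?_
      rw [pderiv_C_mul, pderiv_comm, Function.iterate_succ_apply']
  rw [h2, ← h1]
  exact (hl _).1 (mem_N.2 ⟨_, iterate_mem_rel hP hQ m, rfl⟩) j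

/-- the special point. -/
theorem exists_special (hG : RData G h d) (k₀ : ι) :
    ∃ p : ι → ℂ, p ≠ 0 ∧ ∃ c : ℂ, hv h p = c • (Pi.single k₀ 1 : ι → ℂ) := by
  have hdim : ringKrullDim (MvPolynomial ι ℂ ⧸ (⊥ : Ideal (MvPolynomial ι ℂ))) =
      Fintype.card ι := by
    rw [ringKrullDim_eq_of_ringEquiv (RingEquiv.quotientBot (MvPolynomial ι ℂ)),
      MvPolynomial.ringKrullDim_of_isNoetherianRing]
    simp
  obtain ⟨p, -, hp0, hp⟩ := exists_ne_zero (⊥ : Ideal (MvPolynomial ι ℂ)) Ideal.isPrime_bot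
    (by intro f hf d; rw [Ideal.mem_bot] at hf ⊢; rw [hf, map_zero])
    (fun k : {k : ι // k ≠ k₀} => h k) (fun k => eval_zero_homog (hG.hom k) (hG.pos k)) (by
      rw [hdim]
      have : Fintype.card {k : ι // k ≠ k₀} < Fintype.card ι :=
        Fintype.card_subtype_lt (x := k₀) (by simp)
      exact_mod_cast this)
  refine ⟨p, hp0, eval p (h k₀), ?_⟩
  funext k
  by_cases hk : k = k₀
  · subst hk; simp [hv]
  · have := hp ⟨k, hk⟩
    simp [hv, hk]
    exact this

/-- the relations have `r` independent linear parts. -/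
theorem le_finrank (hG : RData G h d) (hX : GVar G I r) {x₀ : ι → ℂ} (hx₀ : x₀ ∈ cone I) {k₀ : ι}
    (hP : ∀ Q ∈ rel h I, pderiv k₀ Q ∈ rel h I) :
    r ≤ Module.finrank ℂ (N (rel h I) 0) := by
  have h0 := zero_mem_cone hX.smooth hx₀
  obtain ⟨p, hp0, c, hpc⟩ := exists_special hG k₀
  have hp : p ∈ cone I := by
    apply mem_cone_of_inv hG hX
    intro F hF hinv
    obtain ⟨Q, rfl⟩ := exists_aeval hG hinv
    rw [eval_aeval, hpc]
    exact rel_eval_axis hG h0 hP (mem_rel.2 hF) c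
  let Θ : (ι → ℂ) →ₗ[ℂ] (ι → ℂ) :=
    { toFun := fun y => ∑ k, y k • dif (h k) p
      map_add' := fun x y => by simp [add_smul, Finset.sum_add_distrib]
      map_smul' := fun a x => by simp [mul_smul, Finset.smul_sum] }
  have hle : N I p ≤ (N (rel h I) 0).map Θ := by
    intro σ hσ
    obtain ⟨F, hF, hinv, rfl⟩ := mem_N_inv hG hX hp hσ
    obtain ⟨Q, rfl⟩ := exists_aeval hG hinv
    refine ⟨dif Q (c • (Pi.single k₀ 1 : ι → ℂ)), dif_axis hP (mem_rel.2 hF) c, ?_⟩
    change ∑ k, dif Q (c • (Pi.single k₀ 1 : ι → ℂ)) k • dif (h k) p = _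
    rw [dif_aeval, hpc]
    rfl
  calc r = Module.finrank ℂ (N I p) := (hX.smooth.rank p hp hp0).symm
    _ ≤ Module.finrank ℂ ((N (rel h I) 0).map Θ) := Submodule.finrank_mono hle
    _ ≤ _ := Submodule.finrank_map_le _ _

end H46.Hart
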