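import Pool.Agent.H46.Hart.Main

/-!
# The symmetric group as a reflection group
-/

open MvPolynomial

set_option linter.unusedSectionVars false

namespace H46.Hart

open H89.Hart

variable {n : ℕ}

/-- the permutation representation. -/
noncomputable def permHom (n : ℕ) : Equiv.Perm (Fin (n + 1)) →* Aut (Fin (n + 1)) where
  toFun σ := LinearEquiv.funCongrLeft ℂ ℂ σ⁻¹
  map_one' := by ext x i; rfl
  map_mul' σ τ := by
    ext x i
    simp [LinearEquiv.funCongrLeft, mul_inv_rev]

theorem permHom_apply (σ : Equiv.Perm (Fin (n + 1))) (x : Fin (n + 1) → ℂ) (i : Fin (n + 1)) :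
    permHom n σ x i = x (σ⁻¹ i) := rfl

/-- permutation matrices. -/
noncomputable def permGroup (n : ℕ) : Subgroup (Aut (Fin (n + 1))) := (permHom n).range

theorem isRefl_swap (i j : Fin (n + 1)) : IsRefl (permHom n (Equiv.swap i j)) := by
  refine ⟨Pi.single i 1 - Pi.single j 1, Pi.single j 1 - Pi.single i 1, fun x => ?_⟩
  funext k
  rw [permHom_apply, Equiv.swap_inv]
  simp only [sub_dotProduct, single_dotProduct, one_mul, Pi.add_apply, Pi.smul_apply,
    Pi.sub_apply, smul_eq_mul]
  by_cases hij : i = j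
  · subst hij; simp
  by_cases hki : k = i
  · subst hki
    rw [Equiv.swap_apply_left]
    simp [hij]
  · by_cases hkj : k = j
    · subst hkj
      rw [Equiv.swap_apply_right]
      simp [hki]
    · rw [Equiv.swap_apply_of_ne_of_ne hki hkj]
      simp [hki, hkj]

theorem eval_perm (σ : Equiv.Perm (Fin (n + 1))) (x : Fin (n + 1) → ℂ)
    (f : MvPolynomial (Fin (n + 1)) ℂ) :
    eval (permHom n σ x) f = eval x (rename (σ⁻¹ : Equiv.Perm (Fin (n + 1))) f) := by
  rw [eval_rename]
  rfl

theorem esymm_homog (k : ℕ) : (esymm (Fin (n + 1)) ℂ k).IsHomogeneous k := by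
  rw [esymm]
  apply IsHomogeneous.sum
  intro t ht
  have := IsHomogeneous.prod t (fun i => (X i : MvPolynomial (Fin (n + 1)) ℂ)) (fun _ => 1)
    (fun i _ => isHomogeneous_X ℂ i)
  rwa [Finset.sum_const, (Finset.mem_powersetCard.1 ht).2, smul_eq_mul, mul_one] at this

/-- The symmetric group satisfies the hypotheses on reflection groups. -/
theorem rdata_perm (n : ℕ) : RData (permGroup n)
    (fun k : Fin (n + 1) => esymm (Fin (n + 1)) ℂ (k + 1)) (fun k => k + 1) where
  finite := by
    rw [permGroup]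
    exact Finite.of_surjective (permHom n).rangeRestrict (permHom n).rangeRestrict_surjective
  refl := by
    rintro _ ⟨σ, rfl⟩
    have h1 : σ ∈ Subgroup.closure {σ : Equiv.Perm (Fin (n + 1)) | σ.IsSwap} := by
      rw [Equiv.Perm.closure_isSwap]; trivial
    induction h1 using Subgroup.closure_induction with
    | mem t ht =>
      obtain ⟨i, j, -, rfl⟩ := ht
      exact Subgroup.subset_closure ⟨⟨_, rfl⟩, isRefl_swap i j⟩
    | one => rw [map_one]; exact Subgroup.one_mem _
    | mul x y _ _ hx hy => rw [map_mul]; exact Subgroup.mul_mem _ hx hy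
    | inv x _ hx => rw [map_inv]; exact Subgroup.inv_mem _ hx
  pos := fun k => Nat.succ_pos _
  hom := fun k => esymm_homog _
  inv := by
    rintro k _ ⟨σ, rfl⟩ x
    rw [eval_perm, esymm_isSymmetric]
  gen := by
    intro f hf
    have hs : f.IsSymmetric := by
      intro σ
      apply MvPolynomial.funext
      intro x
      have := hf _ ⟨σ⁻¹, rfl⟩ x
      rw [eval_perm, inv_inv] at this
      exact this
    obtain ⟨p, hp⟩ := esymmAlgHom_surjective (σ := Fin (n + 1)) (R := ℂ) (n := n + 1)
      (by simp) ⟨f, hs⟩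
    rw [Algebra.adjoin_range_eq_range_aeval]
    refine ⟨p, ?_⟩
    have := congrArg Subtype.val hp
    rw [esymmAlgHom_apply] at this
    exact this

/-- a permutation fixing the cone pointwise is trivial if `dim X ≥ 1`. -/
theorem faithful_perm {I : Ideal (MvPolynomial (Fin (n + 1)) ℂ)} {r : ℕ} (hI : Smooth I r)
    (hdim2 : (1 : WithBot ℕ∞) < ringKrullDim (MvPolynomial (Fin (n + 1)) ℂ ⧸ I))
    (hst : ∀ σ : Equiv.Perm (Fin (n + 1)), ∀ x ∈ cone I, x ∘ σ ∈ cone I) :
    GVar (permGroup n) I r where
  smooth := hI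
  stable := by
    rintro _ ⟨σ, rfl⟩ x hx
    exact hst σ⁻¹ x hx
  faithful := by
    rintro _ ⟨σ, rfl⟩ hfix
    by_contra hne
    obtain ⟨i, hi⟩ : ∃ i, σ⁻¹ i ≠ i := by
      by_contra hcon
      push Not at hcon
      apply hne
      have : σ⁻¹ = 1 := Equiv.ext hcon
      rw [inv_eq_one.1 this, map_one]
    have hall : ∀ x ∈ cone I, ∀ a b, x a = x b := by
      intro x hx a b
      by_cases hab : a = b
      · rw [hab]
      obtain ⟨τ, hτ1, hτ2⟩ : ∃ τ : Equiv.Perm (Fin (n + 1)), τ i = a ∧ τ (σ⁻¹ i) = b := by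
        refine ⟨Equiv.swap b (Equiv.swap i a (σ⁻¹ i)) * Equiv.swap i a, ?_, ?_⟩
        · rw [Equiv.Perm.mul_apply, Equiv.swap_apply_left, Equiv.swap_apply_of_ne_of_ne hab]
          intro h
          have h' := congrArg (Equiv.swap i a) h
          rw [Equiv.swap_apply_right, Equiv.swap_apply_self] at h'
          exact hi h'.symm
        · rw [Equiv.Perm.mul_apply, Equiv.swap_apply_right]
      have h1 := congrFun (hfix _ (hst τ x hx)) i
      rw [permHom_apply] at h1
      simp only [Function.comp_apply, hτ1, hτ2] at h1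
      exact h1.symm
    obtain ⟨x, hx, hx0, hx1⟩ := exists_ne_zero I hI.prime hI.homog
      (fun _ : Fin 1 => (X 0 : MvPolynomial (Fin (n + 1)) ℂ)) (by intro b; simp) (by
        simpa using hdim2)
    apply hx0
    funext a
    rw [hall x hx a 0]
    simpa using hx1 0

end H46.Hart
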